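import Pool.Agent.Q44.WK.Stm

/-!
# Project WK of helper44: job FC, the relation of bounded degree along a chain
-/

set_option autoImplicit false

namespace Pool.Agent.Q65.WK.FC

open MvPolynomial Pool.Agent.Q44.WK

section deg

variable {K Ω : Type} [Field K] [Field Ω] [Algebra K Ω]

/-- the degree of `E` over `F` is at most `n` -/
def Sp (F E : IntermediateField K Ω) (n : ℕ) : Prop :=
  ∃ m : ℕ, m ≤ n ∧ ∃ b : Fin m → Ω, ∀ x ∈ E, ∃ f : Fin m → Ω, (∀ j, f j ∈ F) ∧ x = ∑ j, f j * b j

theorem Sp_mono {F E : IntermediateField K Ω} {n n' : ℕ} (h : Sp F E n) (hn : n ≤ n') :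
    Sp F E n' := by
  obtain ⟨m, hm, b, hb⟩ := h
  exact ⟨m, hm.trans hn, b, hb⟩

theorem Sp_trans {F E E' : IntermediateField K Ω} {n n' : ℕ} (h : Sp F E n) (h' : Sp E E' n') :
    Sp F E' (n' * n) := by
  obtain ⟨m, hm, b, hb⟩ := h
  obtain ⟨m', hm', b', hb'⟩ := h'
  refine ⟨m' * m, Nat.mul_le_mul hm' hm, fun j => b' (finProdFinEquiv.symm j).1 *
    b (finProdFinEquiv.symm j).2, fun x hx => ?_⟩
  obtain ⟨g, hg, hgx⟩ := hb' x hx
  choose f hf hfg using fun j => hb (g j) (hg j)
  refine ⟨fun j => f (finProdFinEquiv.symm j).1 (finProdFinEquiv.symm j).2, fun j => hf _ _, ?_⟩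
  rw [← finProdFinEquiv.sum_comp]
  simp only [Equiv.symm_apply_apply]
  rw [Fintype.sum_prod_type, hgx]
  refine Finset.sum_congr rfl fun i _ => ?_
  rw [hfg i, Finset.sum_mul]
  refine Finset.sum_congr rfl fun j _ => ?_
  ring

theorem Sp_adj (F : IntermediateField K Ω) (r : Ω) (n : ℕ) (P : Polynomial F) (hP : P ≠ 0)
    (hn : P.natDegree ≤ n) (hr : Polynomial.aeval r P = 0) :
    ∃ E : IntermediateField K Ω, F ≤ E ∧ r ∈ E ∧ Sp F E n := by
  have halg : IsAlgebraic F r := ⟨P, hP, hr⟩
  have hint : IsIntegral F r := halg.isIntegral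
  have : FiniteDimensional F (IntermediateField.adjoin F {r}) :=
    IntermediateField.adjoin.finiteDimensional hint
  refine ⟨(IntermediateField.adjoin F {r}).restrictScalars K, ?_, ?_, ?_⟩
  · intro x hx
    rw [IntermediateField.mem_restrictScalars]
    exact IntermediateField.algebraMap_mem _ (⟨x, hx⟩ : F)
  · rw [IntermediateField.mem_restrictScalars]
    exact IntermediateField.mem_adjoin_simple_self F r
  · refine ⟨Module.finrank F (IntermediateField.adjoin F {r}), ?_, fun j =>
      ((Module.finBasis F (IntermediateField.adjoin F {r}) j : IntermediateField.adjoin F {r}) : Ω),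
      fun x hx => ?_⟩
    · rw [IntermediateField.adjoin.finrank hint]
      exact (Polynomial.natDegree_le_natDegree (minpoly.degree_le_of_ne_zero F r hP hr)).trans hn
    · rw [IntermediateField.mem_restrictScalars] at hx
      have h1 := (Module.finBasis F (IntermediateField.adjoin F {r})).sum_repr ⟨x, hx⟩
      refine ⟨fun j => (((Module.finBasis F (IntermediateField.adjoin F {r})).repr ⟨x, hx⟩ j : F) : Ω),
        fun j => SetLike.coe_mem _, ?_⟩
      have h2 := congrArg (fun y : IntermediateField.adjoin F {r} => (y : Ω)) h1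
      simp only at h2
      refine h2.symm.trans ?_
      push_cast
      refine Finset.sum_congr rfl fun j _ => ?_
      rfl

theorem Sp_rel (F E : IntermediateField K Ω) (n : ℕ) (h : Sp F E n) (u : Ω) (hu : u ∈ E) :
    ∃ f : Fin (n + 1) → F, (∃ i, f i ≠ 0) ∧ ∑ i, (f i : Ω) * u ^ (i : ℕ) = 0 := by
  obtain ⟨m, hm, b, hb⟩ := h
  have hdep : ¬ LinearIndependent F (fun i : Fin (n + 1) => u ^ (i : ℕ)) := by
    intro hli
    have hmem : ∀ i : Fin (n + 1), u ^ (i : ℕ) ∈ Submodule.span F (Set.range b) := by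
      intro i
      obtain ⟨f, hf, hfx⟩ := hb _ (pow_mem hu (i : ℕ))
      rw [hfx]
      refine Submodule.sum_mem _ fun j _ => ?_
      exact Submodule.smul_mem _ (⟨f j, hf j⟩ : F) (Submodule.subset_span ⟨j, rfl⟩)
    have hli2 : LinearIndependent F
        (fun i : Fin (n + 1) => (⟨u ^ (i : ℕ), hmem i⟩ : Submodule.span F (Set.range b))) := by
      refine LinearIndependent.of_comp (Submodule.span F (Set.range b)).subtype ?_
      exact hli
    have : FiniteDimensional F (Submodule.span F (Set.range b)) :=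
      FiniteDimensional.span_of_finite F (Set.finite_range b)
    have h1 := hli2.fintype_card_le_finrank
    have h2 := finrank_range_le_card (R := F) b
    rw [Fintype.card_fin] at h1 h2
    have h3 : Module.finrank F (Submodule.span F (Set.range b)) ≤ m := h2
    omega
  obtain ⟨g, hg, hg2⟩ := Fintype.not_linearIndependent_iff.1 hdep
  exact ⟨g, hg2, hg⟩

/-- clearing the denominators -/
theorem clear (w u : Ω) (n : ℕ) (f : Fin (n + 1) → IntermediateField.adjoin K {w})
    (h0 : ∃ i, f i ≠ 0) (hf : ∑ i, (f i : Ω) * u ^ (i : ℕ) = 0) :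
    ∃ p : Fin (n + 1) → Polynomial K, p ≠ 0 ∧
      ∑ i, Polynomial.aeval w (p i) * u ^ (i : ℕ) = 0 := by
  classical
  have hrs : ∀ i, ∃ r s : Polynomial K, Polynomial.aeval w s ≠ 0 ∧
      (f i : Ω) * Polynomial.aeval w s = Polynomial.aeval w r := by
    intro i
    obtain ⟨r, s, hx⟩ := (IntermediateField.mem_adjoin_simple_iff K _).1 (f i).2
    by_cases hs : Polynomial.aeval w s = 0
    · refine ⟨0, 1, by simp, ?_⟩
      rw [hx, hs]
      simp
    · exact ⟨r, s, hs, by rw [hx, div_mul_cancel₀ _ hs]⟩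
  choose r s hs hrs using hrs
  refine ⟨fun i => r i * ∏ j ∈ Finset.univ.erase i, s j, ?_, ?_⟩
  · obtain ⟨i, hi⟩ := h0
    intro hp
    have h1 := congrArg (Polynomial.aeval w) (congrFun hp i)
    rw [Pi.zero_apply, map_zero, map_mul, ← hrs, map_prod] at h1
    refine absurd h1 (mul_ne_zero (mul_ne_zero ?_ (hs i)) (Finset.prod_ne_zero_iff.2 fun j _ => hs j))
    intro h2
    exact hi (Subtype.ext h2)
  · have h1 : ∀ i, Polynomial.aeval w (r i * ∏ j ∈ Finset.univ.erase i, s j) * u ^ (i : ℕ) =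
        (∏ j, Polynomial.aeval w (s j)) * ((f i : Ω) * u ^ (i : ℕ)) := by
      intro i
      rw [map_mul, ← hrs, map_prod, ← Finset.mul_prod_erase _ _ (Finset.mem_univ i)]
      ring
    simp only [h1]
    rw [← Finset.mul_sum, hf, mul_zero]

theorem DefBy_mono {E E' : IntermediateField K Ω} (h : E ≤ E') {v : V Ω} (hv : DefBy E v) :
    DefBy E' v := by
  obtain ⟨s, hs, h1⟩ := hv
  exact ⟨s, hs, fun a => h (h1 a)⟩

theorem DefBy_div {E : IntermediateField K Ω} {v : V Ω} (hv : DefBy E v) (a b : Fin 3) :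
    v a / v b ∈ E := by
  obtain ⟨s, hs, h1⟩ := hv
  have : v a / v b = (s * v a) / (s * v b) := by rw [mul_div_mul_left _ _ hs]
  rw [this]
  exact div_mem (h1 a) (h1 b)

theorem third (c d : Fin 3) (h : c ≠ d) : ∃ c' : Fin 3, c' ≠ c ∧ c' ≠ d ∧
    ∀ i, i = c ∨ i = d ∨ i = c' := by
  fin_cases c <;> fin_cases d <;> first | exact absurd rfl h | skip
  · exact ⟨2, by decide, by decide, by decide⟩
  · exact ⟨1, by decide, by decide, by decide⟩
  · exact ⟨2, by decide, by decide, by decide⟩
  · exact ⟨0, by decide, by decide, by decide⟩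
  · exact ⟨1, by decide, by decide, by decide⟩
  · exact ⟨0, by decide, by decide, by decide⟩

end deg

theorem main (h1 : S_f1) (h2 : S_f2) (h3 : S_f3) : S_fld := by
  intro K Ω _ _ _ _ D ζ hζ α A hA hA0 k hk hAk a b c d hb hd
  by_cases htr : Transcendental K (ζ k c / ζ k d)
  swap
  · -- algebraic
    have halg : IsAlgebraic K (ζ k c / ζ k d) := by
      by_contra h
      exact htr h
    obtain ⟨P, hP, hPw⟩ := halg
    refine ⟨fun i => if (i : ℕ) = 0 then P else 0, ?_, ?_⟩
    · intro h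
      have h4 := congrFun h 0
      rw [Pi.zero_apply, if_pos (by simp)] at h4
      exact hP h4
    · refine Finset.sum_eq_zero fun i _ => ?_
      show Polynomial.aeval (ζ k c / ζ k d) (if (i : ℕ) = 0 then P else 0) *
        (ζ 0 a / ζ 0 b) ^ (i : ℕ) = 0
      by_cases hi : (i : ℕ) = 0
      · rw [if_pos hi, hPw, zero_mul]
      · rw [if_neg hi, map_zero, zero_mul]
  · have hcd : c ≠ d := by
      rintro rfl
      rw [div_self hd] at htr
      exact htr isAlgebraic_one
    obtain ⟨c', hc1, hc2, hall⟩ := third c d hcd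
    obtain ⟨P, hP0, hPn, hPr⟩ := h3 K Ω α A hA hA0 (ζ k) hAk c d c' hd hcd hc1 hc2 htr
    obtain ⟨E, hFE, hcE, hSE⟩ := Sp_adj (IntermediateField.adjoin K {ζ k c / ζ k d})
      (ζ k c' / ζ k d) α P hP0 hPn hPr
    have hwF : ζ k c / ζ k d ∈ IntermediateField.adjoin K {ζ k c / ζ k d} :=
      IntermediateField.mem_adjoin_simple_self K _
    have hDk : DefBy E (ζ k) := by
      refine ⟨(ζ k d)⁻¹, inv_ne_zero hd, fun i => ?_⟩
      rw [mul_comm, ← div_eq_mul_inv]
      rcases hall i with h | h | h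
      · rw [h]
        exact hFE hwF
      · rw [h, div_self hd]
        exact one_mem E
      · rw [h]
        exact hcE
    -- the field for ζ 0
    have hmain : ∃ E' : IntermediateField K Ω,
        Sp (IntermediateField.adjoin K {ζ k c / ζ k d}) E' (8 * α) ∧ DefBy E' (ζ 0) := by
      rcases Nat.eq_zero_or_pos k with h0 | h0
      · rw [h0] at hDk
        exact ⟨E, Sp_mono hSE (by omega), hDk⟩
      · obtain ⟨l, rfl⟩ : ∃ l, k = l + 1 := ⟨k - 1, by omega⟩
        obtain ⟨hon, hadj⟩ := hζ l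
        have hon2 := (hζ (l + 1)).1
        have halt : (D.map (algebraMap K Ω)).alt (l + 1) = D.map (algebraMap K Ω) := by
          unfold Dat.alt
          rw [if_pos hk]
        rw [halt] at hadj hon2
        have hadj' : (D.map (algebraMap K Ω)).Adj (ζ (l + 1)) (ζ (l + 2)) (ζ l) := by
          obtain ⟨e, he, h5⟩ := hadj
          refine ⟨e, he, fun i j => ?_⟩
          rw [← h5 i j]
          ring
        have hy : ζ (l + 2) ≠ 0 := hon2.2.1
        have hy' : ζ l ≠ 0 := hon.1
        obtain ⟨r, s, hs, hrs, hpol⟩ := h2 K Ω D _ _ _ hy hy' hadj' E hDk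
        -- adjoin the three numbers
        have hup : ∀ (E₁ : IntermediateField K Ω), E ≤ E₁ → ∀ i, ∃ E₂ : IntermediateField K Ω,
            E₁ ≤ E₂ ∧ r i ∈ E₂ ∧ Sp E₁ E₂ 2 := by
          intro E₁ hE₁ i
          obtain ⟨Q, hQm, hQd, hQr⟩ := hpol i
          refine Sp_adj E₁ (r i) 2 (Q.map (IntermediateField.inclusion hE₁).toRingHom)
            ((hQm.map _).ne_zero) ?_ ?_
          · exact Polynomial.natDegree_map_le.trans hQd.le
          · rw [← hQr, Polynomial.aeval_def, Polynomial.eval₂_map, Polynomial.aeval_def]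
            rfl
        obtain ⟨E₁, l1, m1, s1⟩ := hup E le_rfl 0
        obtain ⟨E₂, l2, m2, s2⟩ := hup E₁ l1 1
        obtain ⟨E₃, l3, m3, s3⟩ := hup E₂ (l1.trans l2) 2
        have hS : Sp (IntermediateField.adjoin K {ζ (l + 1) c / ζ (l + 1) d}) E₃ (8 * α) := by
          have h6 := Sp_trans hSE (Sp_trans s1 (Sp_trans s2 s3))
          exact Sp_mono h6 (by omega)
        have hr : ∀ i, r i ∈ E₃ := by
          intro i
          fin_cases i
          · exact l3 (l2 m1)
          · exact l3 m2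
          · exact m3
        have hDk1 : DefBy E₃ (ζ (l + 1)) := DefBy_mono (l1.trans (l2.trans l3)) hDk
        have hDk2 : DefBy E₃ (ζ (l + 1 + 1)) := by
          refine ⟨s, hs, fun i => ?_⟩
          have h7 := hr i
          rw [hrs] at h7
          exact h7
        exact ⟨E₃, hS, h1 K Ω D ζ hζ E₃ (l + 1) hDk1 hDk2⟩
    obtain ⟨E', hS, hD0⟩ := hmain
    obtain ⟨f, hf0, hf⟩ := Sp_rel _ E' (8 * α) hS (ζ 0 a / ζ 0 b) (DefBy_div hD0 a b)
    exact clear _ (ζ 0 a / ζ 0 b) (8 * α) f hf0 hf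

end Pool.Agent.Q65.WK.FC

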